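import Mathlib

open Set Topology Filter

namespace Pool.Agent.Results.MP_67ce71_gt.HausdorffCounterexample

/-! ### Definitions used in the statement -/

/-- `r` is a total preorder: reflexive, transitive, complete. -/
def IsTotalPreorder {X : Type*} (r : X → X → Prop) : Prop :=
  (∀ x, r x x) ∧ (∀ x y z, r x y → r y z → r x z) ∧ (∀ x y, r x y ∨ r y x)

/-- The strict upper section `{y : x ≺ y}`. -/
def strictUpper {X : Type*} (r : X → X → Prop) (x : X) : Set X := {y | r x y ∧ ¬ r y x}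

/-- The strict lower section `{y : y ≺ x}`. -/
def strictLower {X : Type*} (r : X → X → Prop) (x : X) : Set X := {y | r y x ∧ ¬ r x y}

/-- `u` is a utility representation of `r`. -/
def Represents {X : Type*} (r : X → X → Prop) (u : X → ℝ) : Prop := ∀ x y, r x y ↔ u x ≤ u y

/-- Semicontinuous representability property. -/
def SRP (X : Type*) [TopologicalSpace X] : Prop :=
  (∀ r : X → X → Prop, IsTotalPreorder r → (∀ x, IsOpen (strictUpper r x)) →
    ∃ u : X → ℝ, LowerSemicontinuous u ∧ Represents r u) ∧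
  (∀ r : X → X → Prop, IsTotalPreorder r → (∀ x, IsOpen (strictLower r x)) →
    ∃ u : X → ℝ, UpperSemicontinuous u ∧ Represents r u)

/-- Continuous representability property. -/
def CRP (X : Type*) [TopologicalSpace X] : Prop :=
  ∀ r : X → X → Prop, IsTotalPreorder r → (∀ x, IsOpen (strictUpper r x)) →
    (∀ x, IsOpen (strictLower r x)) → ∃ u : X → ℝ, Continuous u ∧ Represents r u

/-- Hereditary continuous representability property: every nonempty subspace has CRP. -/
def HCRP (X : Type*) [TopologicalSpace X] : Prop := ∀ Y : Set X, Y.Nonempty → CRP Y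

/-! ### Representation theorem for linear orders with a countable order-dense subset -/

section order

variable {C : Type*} [LinearOrder C] [TopologicalSpace C] [OrderTopology C]

lemma exists_monotone_continuous {d e : C} (hde : d < e) :
    ∃ u : C → ℝ, Monotone u ∧ Continuous u ∧ u d = 0 ∧ u e = 1 ∧ ∀ x, 0 ≤ u x ∧ u x ≤ 1 := by
  classical
  by_cases h : ∃ a b, d ≤ a ∧ b ≤ e ∧ a ⋖ b
  · obtain ⟨a, b, hda, hbe, hab⟩ := h
    have hIci : Ici b = Ioi a := by
      ext x
      simp only [mem_Ici, mem_Ioi]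
      constructor
      · intro hx; exact lt_of_lt_of_le hab.lt hx
      · intro hx
        by_contra hxb
        exact hab.2 hx (not_le.mp hxb)
    have hcl : IsClopen (Ici b) := ⟨isClosed_Ici, hIci ▸ isOpen_Ioi⟩
    refine ⟨fun x => if x ∈ Ici b then 1 else 0, ?_, ?_, ?_, ?_, ?_⟩
    · intro x y hxy
      by_cases hx : x ∈ Ici b
      · have hy : y ∈ Ici b := le_trans hx hxy
        simp [hx, hy]
      · by_cases hy : y ∈ Ici b <;> simp [hx, hy]
    · exact (IsLocallyConstant.continuous (by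
        rw [IsLocallyConstant.iff_exists_open]
        intro x
        by_cases hx : x ∈ Ici b
        · exact ⟨Ici b, hcl.isOpen, hx, fun y hy => by simp [hx, hy]⟩
        · exact ⟨(Ici b)ᶜ, hcl.compl.isOpen, hx, fun y hy => by
            rw [if_neg hx, if_neg hy]⟩))
    · have : d ∉ Ici b := fun hd => absurd (lt_of_lt_of_le hab.lt hd) (not_lt.mpr hda)
      simp only [this, if_false]
    · have : e ∈ Ici b := hbe
      simp only [this, if_true]
    · intro x
      by_cases hx : x ∈ Ici b <;> simp only [hx, if_true, if_false] <;> norm_num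
  · push Not at h
    have hdense : ∀ a b : C, d ≤ a → b ≤ e → a < b → ∃ c, a < c ∧ c < b := by
      intro a b hda hbe hab
      exact (not_covBy_iff hab).mp (h a b hda hbe)
    have : DenselyOrdered (Ioo d e) := ⟨by
      rintro ⟨a, ha⟩ ⟨b, hb⟩ hab
      obtain ⟨c, hc1, hc2⟩ := hdense a b ha.1.le hb.2.le hab
      exact ⟨⟨c, ha.1.trans hc1, hc2.trans hb.2⟩, hc1, hc2⟩⟩
    have : Nontrivial (Ioo d e) := by
      obtain ⟨c, hc1, hc2⟩ := hdense d e le_rfl le_rfl hde
      obtain ⟨c', hc1', hc2'⟩ := hdense d c le_rfl hc2.le hc1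
      exact ⟨⟨⟨c, hc1, hc2⟩, ⟨c', hc1', hc2'.trans hc2⟩, fun hne => by
        have : c = c' := congrArg Subtype.val hne
        exact absurd this (ne_of_gt hc2')⟩⟩
    obtain ⟨φ⟩ := Order.embedding_from_countable_to_dense (Ioo (0:ℚ) 1) (Ioo d e)
    let S : C → Set ℝ := fun x => insert 0 {t : ℝ | ∃ q : Ioo (0:ℚ) 1, ((q : ℚ) : ℝ) = t ∧ ((φ q : Ioo d e) : C) ≤ x}
    let u : C → ℝ := fun x => sSup (S x)
    have hS1 : ∀ x, ∀ t ∈ S x, 0 ≤ t ∧ t ≤ 1 := by
      intro x t ht
      rcases ht with rfl | ⟨q, rfl, -⟩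
      · norm_num
      · constructor
        · exact_mod_cast q.2.1.le
        · exact_mod_cast q.2.2.le
    have hbdd : ∀ x, BddAbove (S x) := fun x => ⟨1, fun t ht => (hS1 x t ht).2⟩
    have hne : ∀ x, (S x).Nonempty := fun x => ⟨0, mem_insert _ _⟩
    have hu0 : ∀ x, 0 ≤ u x := fun x => le_csSup (hbdd x) (mem_insert _ _)
    have hu1 : ∀ x, u x ≤ 1 := fun x => csSup_le (hne x) (fun t ht => (hS1 x t ht).2)
    have hA : ∀ (q : Ioo (0:ℚ) 1) x, ((φ q : Ioo d e) : C) ≤ x → ((q : ℚ) : ℝ) ≤ u x := by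
      intro q x hx
      exact le_csSup (hbdd x) (mem_insert_of_mem _ ⟨q, rfl, hx⟩)
    have hB : ∀ (q : Ioo (0:ℚ) 1) x, x < ((φ q : Ioo d e) : C) → u x ≤ ((q : ℚ) : ℝ) := by
      intro q x hx
      refine csSup_le (hne x) ?_
      rintro t (rfl | ⟨q', rfl, hq'⟩)
      · exact_mod_cast q.2.1.le
      · have h1 : ((φ q' : Ioo d e) : C) < ((φ q : Ioo d e) : C) := lt_of_le_of_lt hq' hx
        have h2 : φ q' < φ q := h1
        have h3 : q' < q := φ.lt_iff_lt.mp h2
        have h4 : (q' : ℚ) ≤ (q : ℚ) := h3.le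
        exact_mod_cast h4
    have hmono : Monotone u := by
      intro x y hxy
      refine csSup_le_csSup (hbdd y) (hne x) ?_
      rintro t (rfl | ⟨q, rfl, hq⟩)
      · exact mem_insert _ _
      · exact mem_insert_of_mem _ ⟨q, rfl, hq.trans hxy⟩
    refine ⟨u, hmono, ?_, ?_, ?_, fun x => ⟨hu0 x, hu1 x⟩⟩
    · rw [continuous_iff_continuousAt]
      intro x
      rw [ContinuousAt, tendsto_order]
      constructor
      · intro a ha
        obtain ⟨t, ht, hat⟩ := exists_lt_of_lt_csSup (hne x) ha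
        rcases ht with rfl | ⟨q, rfl, hq⟩
        · exact Eventually.of_forall fun y => lt_of_lt_of_le hat (hu0 y)
        · have : max a 0 < ((q : ℚ) : ℝ) := max_lt hat (by exact_mod_cast q.2.1)
          obtain ⟨q', hq'1, hq'2⟩ := exists_rat_btwn this
          have h0 : (0:ℝ) < (q' : ℝ) := lt_of_le_of_lt (le_max_right _ _) hq'1
          have h1 : q' < (q : ℚ) := by exact_mod_cast hq'2
          let q'' : Ioo (0:ℚ) 1 := ⟨q', by exact_mod_cast h0, h1.trans q.2.2⟩
          have hlt : ((φ q'' : Ioo d e) : C) < x := lt_of_lt_of_le (φ.lt_iff_lt.mpr (show q'' < q from h1)) hq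
          filter_upwards [Ioi_mem_nhds hlt] with y hy
          calc a ≤ max a 0 := le_max_left _ _
            _ < q' := hq'1
            _ ≤ u y := hA q'' y (le_of_lt hy)
      · intro a ha
        by_cases h1a : 1 < a
        · exact Eventually.of_forall fun y => lt_of_le_of_lt (hu1 y) h1a
        · push Not at h1a
          obtain ⟨q, hq1, hq2⟩ := exists_rat_btwn ha
          have h0 : (0:ℝ) < (q : ℝ) := lt_of_le_of_lt (hu0 x) hq1
          have h1 : (q:ℝ) < 1 := lt_of_lt_of_le hq2 h1a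
          let q' : Ioo (0:ℚ) 1 := ⟨q, by exact_mod_cast h0, by exact_mod_cast h1⟩
          have hlt : x < ((φ q' : Ioo d e) : C) := by
            by_contra hc
            exact absurd (hA q' x (not_lt.mp hc)) (not_le.mpr hq1)
          filter_upwards [Iio_mem_nhds hlt] with y hy
          exact lt_of_le_of_lt (hB q' y hy) hq2
    · refine le_antisymm ?_ (hu0 d)
      refine csSup_le (hne d) ?_
      rintro t (rfl | ⟨q, rfl, hq⟩)
      · exact le_rfl
      · exact absurd hq (not_le.mpr (φ q).2.1)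
    · refine le_antisymm (hu1 e) ?_
      by_contra hc
      push Not at hc
      obtain ⟨q, hq1, hq2⟩ := exists_rat_btwn hc
      have h0 : (0:ℝ) < (q : ℝ) := lt_of_le_of_lt (hu0 e) hq1
      let q' : Ioo (0:ℚ) 1 := ⟨q, by exact_mod_cast h0, by exact_mod_cast hq2⟩
      exact absurd (hA q' e (φ q').2.2.le) (not_le.mpr hq1)

lemma exists_strictMono_continuous (D : Set C) (hD : D.Countable)
    (h : ∀ x y : C, x < y → ∃ d ∈ D, x ≤ d ∧ d ≤ y) :
    ∃ u : C → ℝ, StrictMono u ∧ Continuous u := by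
  classical
  let D' : Set C := D ∪ (⋃ d ∈ D, {y | d ⋖ y}) ∪ (⋃ d ∈ D, {x | x ⋖ d})
  have hD' : D'.Countable := by
    refine (hD.union (hD.biUnion fun d _ => ?_)).union (hD.biUnion fun d _ => ?_)
    · refine Set.Subsingleton.countable ?_
      intro a ha b hb
      exact CovBy.unique_right ha hb
    · refine Set.Subsingleton.countable ?_
      intro a ha b hb
      exact CovBy.unique_left ha hb
  have hDD' : D ⊆ D' := fun x hx => Or.inl (Or.inl hx)
  have key : ∀ x y : C, x < y → ∃ d ∈ D', ∃ e ∈ D', x ≤ d ∧ d < e ∧ e ≤ y := by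
    intro x y hxy
    by_cases hc : x ⋖ y
    · obtain ⟨d, hd, hxd, hdy⟩ := h x y hxy
      rcases hxd.eq_or_lt with rfl | hlt
      · exact ⟨x, hDD' hd, y, Or.inl (Or.inr (mem_biUnion hd hc)), le_rfl, hxy, le_rfl⟩
      · have : d = y := by
          rcases hdy.eq_or_lt with h1 | h1
          · exact h1
          · exact absurd h1 (hc.2 hlt)
        subst this
        exact ⟨x, Or.inr (mem_biUnion hd hc), d, hDD' hd, le_rfl, hxy, le_rfl⟩
    · obtain ⟨z, hxz, hzy⟩ := (not_covBy_iff hxy).mp hc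
      obtain ⟨d, hd, hxd, hdz⟩ := h x z hxz
      obtain ⟨e, he, hze, hey⟩ := h z y hzy
      rcases (hdz.trans hze).eq_or_lt with heq | hlt
      · have hdz' : d = z := le_antisymm hdz (heq ▸ hze)
        subst hdz'
        by_cases hc' : x ⋖ d
        · exact ⟨x, Or.inr (mem_biUnion hd hc'), d, hDD' hd, le_rfl, hxz, hzy.le⟩
        · obtain ⟨z', hxz', hz'd⟩ := (not_covBy_iff hxz).mp hc'
          obtain ⟨d', hd', hxd', hdz''⟩ := h x z' hxz'
          exact ⟨d', hDD' hd', d, hDD' hd, hxd', lt_of_le_of_lt hdz'' hz'd, hzy.le⟩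
      · exact ⟨d, hDD' hd, e, hDD' he, hxd, hlt, hey⟩
  let J : Set (C × C) := {p : C × C | p.1 ∈ D' ∧ p.2 ∈ D' ∧ p.1 < p.2}
  have : Countable J := by
    have : (D' ×ˢ D').Countable := hD'.prod hD'
    have hJ : J ⊆ D' ×ˢ D' := by
      intro p hp
      exact ⟨hp.1, hp.2.1⟩
    exact (this.mono hJ).to_subtype
  let _ : Encodable J := Encodable.ofCountable J
  have hex : ∀ i : J, ∃ u : C → ℝ, Monotone u ∧ Continuous u ∧ u i.1.1 = 0 ∧ u i.1.2 = 1 ∧
      ∀ x, 0 ≤ u x ∧ u x ≤ 1 := fun i => exists_monotone_continuous i.2.2.2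
  choose v hvm hvc hv0 hv1 hvb using hex
  have hw : Summable (fun i : J => (1/2 : ℝ) ^ Encodable.encode i) := summable_geometric_two_encode
  have hbound : ∀ i x, ‖(1/2 : ℝ) ^ Encodable.encode i * v i x‖ ≤ (1/2 : ℝ) ^ Encodable.encode i := by
    intro i x
    rw [norm_mul, Real.norm_of_nonneg (by positivity), Real.norm_of_nonneg (hvb i x).1]
    exact mul_le_of_le_one_right (by positivity) (hvb i x).2
  have hsum : ∀ x, Summable (fun i : J => (1/2 : ℝ) ^ Encodable.encode i * v i x) := fun x =>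
    Summable.of_norm_bounded hw (fun i => hbound i x)
  refine ⟨fun x => ∑' i : J, (1/2 : ℝ) ^ Encodable.encode i * v i x, ?_, ?_⟩
  · intro x y hxy
    obtain ⟨d, hd, e, he, hxd, hde, hey⟩ := key x y hxy
    let i₀ : J := ⟨(d, e), hd, he, hde⟩
    refine Summable.tsum_lt_tsum (i := i₀) (fun i => ?_) ?_ (hsum x) (hsum y)
    · exact mul_le_mul_of_nonneg_left (hvm i hxy.le) (by positivity)
    · have h0 : v i₀ x = 0 :=
        le_antisymm ((hvm i₀ hxd).trans_eq (hv0 i₀)) (hvb _ x).1
      have h1 : v i₀ y = 1 :=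
        le_antisymm (hvb _ y).2 ((hv1 i₀).symm.trans_le (hvm i₀ hey))
      rw [h0, h1]
      simp
  · exact continuous_tsum (fun i => (hvc i).const_mul _) hw hbound

end order

/-- A continuous total preorder with a countable order-dense subset has a continuous utility. -/
lemma exists_continuous_utility {Y : Type*} [TopologicalSpace Y] (r : Y → Y → Prop)
    (hr : IsTotalPreorder r) (hU : ∀ x, IsOpen (strictUpper r x))
    (hL : ∀ x, IsOpen (strictLower r x)) (D : Set Y) (hD : D.Countable)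
    (h : ∀ x y, r x y → ¬ r y x → ∃ d ∈ D, r x d ∧ r d y) :
    ∃ u : Y → ℝ, Continuous u ∧ Represents r u := by
  classical
  let _ : Preorder Y :=
    { le := r
      le_refl := hr.1
      le_trans := hr.2.1 }
  have : Std.Total (α := Y) (· ≤ ·) := ⟨hr.2.2⟩
  let C := Antisymmetrization Y (· ≤ ·)
  let f : Y → C := toAntisymmetrization (· ≤ ·)
  let _ : TopologicalSpace C := Preorder.topology C
  have : OrderTopology C := ⟨rfl⟩
  have hfle : ∀ x y : Y, f x ≤ f y ↔ r x y := fun x y => Iff.rfl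
  have hflt : ∀ x y : Y, f x < f y ↔ (r x y ∧ ¬ r y x) := fun x y => by
    rw [lt_iff_le_not_ge, hfle, hfle]
  have hfsurj : ∀ c : C, ∃ y, f y = c := fun c => Quotient.exists_rep c
  have hfc : Continuous f := by
    refine continuous_generateFrom_iff.mpr ?_
    rintro s ⟨c, rfl | rfl⟩
    · obtain ⟨y, rfl⟩ := hfsurj c
      have : f ⁻¹' (Ioi (f y)) = strictUpper r y := by
        ext z
        exact hflt y z
      rw [this]
      exact hU y
    · obtain ⟨y, rfl⟩ := hfsurj c
      have : f ⁻¹' (Iio (f y)) = strictLower r y := by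
        ext z
        exact hflt z y
      rw [this]
      exact hL y
  obtain ⟨u, hu, huc⟩ := exists_strictMono_continuous (C := C) (f '' D) (hD.image f) (by
    intro a b hab
    obtain ⟨x, rfl⟩ := hfsurj a
    obtain ⟨y, rfl⟩ := hfsurj b
    obtain ⟨h1, h2⟩ := (hflt x y).mp hab
    obtain ⟨d, hd, hxd, hdy⟩ := h x y h1 h2
    exact ⟨f d, mem_image_of_mem f hd, hxd, hdy⟩)
  refine ⟨u ∘ f, huc.comp hfc, ?_⟩
  intro x y
  rw [← hfle x y]
  exact hu.le_iff_le.symm

/-! ### The space: the real line with the topology of sets `U \ N`, `U` Euclidean open and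
`N` countable -/

/-- The underlying set of the example is (a copy of) the real line. -/
@[ext] structure RR : Type where
  /-- the underlying real number -/
  toReal : ℝ

open RR (toReal)

/-- The topology: `s` is open iff it is a Euclidean open set minus a countable set. -/
instance instTopRR : TopologicalSpace RR where
  IsOpen s := ∃ U : Set ℝ, IsOpen U ∧ (∀ x ∈ s, toReal x ∈ U) ∧ {x : RR | toReal x ∈ U ∧ x ∉ s}.Countable
  isOpen_univ := ⟨univ, isOpen_univ, fun _ _ => mem_univ _, by simp⟩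
  isOpen_inter := by
    rintro s t ⟨U, hU, hsU, hUc⟩ ⟨V, hV, htV, hVc⟩
    refine ⟨U ∩ V, hU.inter hV, fun x hx => ⟨hsU x hx.1, htV x hx.2⟩, (hUc.union hVc).mono ?_⟩
    rintro x ⟨⟨hxU, hxV⟩, hx⟩
    by_cases hxs : x ∈ s
    · exact Or.inr ⟨hxV, fun hxt => hx ⟨hxs, hxt⟩⟩
    · exact Or.inl ⟨hxU, hxs⟩
  isOpen_sUnion := by
    intro S hS
    choose! U hU hsU hUc using hS
    obtain ⟨T, hTS, hTc, hT⟩ := TopologicalSpace.isOpen_biUnion_countable S U hU
    refine ⟨⋃ i ∈ S, U i, isOpen_biUnion hU, ?_, ?_⟩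
    · rintro x ⟨s, hs, hxs⟩
      exact mem_biUnion hs (hsU s hs x hxs)
    · rw [← hT]
      refine (hTc.biUnion (t := fun i _ => {x : RR | toReal x ∈ U i ∧ x ∉ i})
        fun i hi => hUc i (hTS hi)).mono ?_
      rintro x ⟨hx, hx'⟩
      rw [mem_iUnion₂] at hx
      obtain ⟨i, hi, hxi⟩ := hx
      exact mem_biUnion hi ⟨hxi, fun hx'' => hx' ⟨i, hTS hi, hx''⟩⟩

lemma continuous_toReal : Continuous toReal := by
  refine ⟨fun U hU => ⟨U, hU, fun x hx => hx, ?_⟩⟩
  have : {x : RR | toReal x ∈ U ∧ x ∉ toReal ⁻¹' U} = ∅ := by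
    ext x
    simp
  rw [this]
  exact countable_empty

/-- Every open subset of a subspace has a Euclidean open hull with countable difference. -/
lemma exists_hull {Y : Set RR} {s : Set Y} (hs : IsOpen s) :
    ∃ E : Set ℝ, IsOpen E ∧ (∀ y ∈ s, toReal y ∈ E) ∧ {y : Y | toReal y ∈ E ∧ y ∉ s}.Countable := by
  obtain ⟨t, ht, rfl⟩ := isOpen_induced_iff.mp hs
  obtain ⟨U, hU, htU, hUc⟩ := ht
  refine ⟨U, hU, fun y hy => htU y hy, ?_⟩
  exact Set.Countable.preimage_of_injOn (f := (Subtype.val : Y → RR)) hUc Subtype.val_injective.injOn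

/-- The points of `Y` with a Euclidean neighbourhood meeting `Y` in a countable set. -/
def thin (Y : Set RR) : Set Y := {y | ∃ E : Set ℝ, IsOpen E ∧ toReal y ∈ E ∧ {z : Y | toReal z ∈ E}.Countable}

lemma countable_thin (Y : Set RR) : (thin Y).Countable := by
  let 𝓑 := TopologicalSpace.countableBasis ℝ
  have h𝓑 : 𝓑.Countable := TopologicalSpace.countable_countableBasis ℝ
  let 𝓑' : Set (Set ℝ) := {B ∈ 𝓑 | {z : Y | toReal z ∈ B}.Countable}
  have h𝓑' : 𝓑'.Countable := h𝓑.mono (fun B hB => hB.1)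
  refine (h𝓑'.biUnion (t := fun B _ => {z : Y | toReal z ∈ B}) fun B hB => hB.2).mono ?_
  rintro y ⟨E, hE, hyE, hEc⟩
  obtain ⟨B, hB, hyB, hBE⟩ :=
    (TopologicalSpace.isBasis_countableBasis ℝ).exists_subset_of_mem_open hyE hE
  exact mem_biUnion (show B ∈ 𝓑' from ⟨hB, hEc.mono fun z hz => hBE hz⟩) hyB

lemma sep {Y : Set RR} {s₁ s₂ : Set Y} {E₁ E₂ : Set ℝ} (hE₁ : IsOpen E₁) (hE₂ : IsOpen E₂)
    (hc₁ : {y : Y | toReal y ∈ E₁ ∧ y ∉ s₁}.Countable)
    (hc₂ : {y : Y | toReal y ∈ E₂ ∧ y ∉ s₂}.Countable) (hd : ∀ y, y ∈ s₁ → y ∉ s₂)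
    {z : Y} (hz : z ∉ thin Y) (h1 : toReal z ∈ E₁) : toReal z ∉ E₂ := by
  intro h2
  apply hz
  refine ⟨E₁ ∩ E₂, hE₁.inter hE₂, ⟨h1, h2⟩, (hc₁.union hc₂).mono ?_⟩
  rintro y ⟨hy1, hy2⟩
  by_cases hy : y ∈ s₁
  · exact Or.inr ⟨hy2, hd y hy⟩
  · exact Or.inl ⟨hy1, hy⟩

theorem hcrp_RR : HCRP RR := by
  classical
  intro Y _ r hr hU hL
  obtain ⟨hrefl, htrans, htotal⟩ := hr
  choose E hE hEL hEc using fun x : Y => exists_hull (hL x)
  choose F hF hFU hFc using fun x : Y => exists_hull (hU x)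
  -- non-thin points in the hull of the lower section of `y` are below `y`
  have hEle : ∀ y w : Y, w ∉ thin Y → toReal w ∈ E y → r w y := by
    intro y w hw hwE
    have h1 : toReal w ∉ F y := sep (hE y) (hF y) (hEc y) (hFc y)
      (fun z hz hz' => hz.2 hz'.1) hw hwE
    by_contra hc
    have h2 : w ∈ strictUpper r y := ⟨(htotal w y).resolve_left hc, hc⟩
    exact h1 (hFU y w h2)
  have hFge : ∀ x w : Y, w ∉ thin Y → toReal w ∈ F x → r x w := by
    intro x w hw hwF
    have h1 : toReal w ∉ E x := sep (hF x) (hE x) (hFc x) (hEc x)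
      (fun z hz hz' => hz.2 hz'.1) hw hwF
    by_contra hc
    have h2 : w ∈ strictLower r x := ⟨(htotal x w).resolve_left hc, hc⟩
    exact h1 (hEL x w h2)
  let 𝓑 := TopologicalSpace.countableBasis ℝ
  have h𝓑 : 𝓑.Countable := TopologicalSpace.countable_countableBasis ℝ
  -- a countable set meeting every basic open set that contains a non-thin point
  let D₁ : Set Y := ⋃ B ∈ 𝓑, {z | ∃ h : ∃ w : Y, w ∉ thin Y ∧ toReal w ∈ B, z = h.choose}
  have hD₁ : D₁.Countable := by
    refine h𝓑.biUnion fun B _ => Set.Subsingleton.countable ?_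
    rintro a ⟨ha, rfl⟩ b ⟨hb, rfl⟩
    rfl
  -- a countable set of left end points of jumps
  let P : Set ℝ → Y → Prop := fun B x =>
    x ∉ thin Y ∧ toReal x ∈ B ∧ ∀ w : Y, w ∉ thin Y → toReal w ∈ B → r w x
  let D₂ : Set Y := ⋃ B ∈ 𝓑, {z | ∃ h : ∃ x : Y, P B x, z = h.choose}
  have hD₂ : D₂.Countable := by
    refine h𝓑.biUnion fun B _ => Set.Subsingleton.countable ?_
    rintro a ⟨ha, rfl⟩ b ⟨hb, rfl⟩
    rfl
  refine exists_continuous_utility r ⟨hrefl, htrans, htotal⟩ hU hL (thin Y ∪ D₁ ∪ D₂)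
    (((countable_thin Y).union hD₁).union hD₂) ?_
  intro x y hxy hyx
  by_cases hx : x ∈ thin Y
  · exact ⟨x, Or.inl (Or.inl hx), hrefl x, hxy⟩
  by_cases hy : y ∈ thin Y
  · exact ⟨y, Or.inl (Or.inl hy), hxy, hrefl y⟩
  by_cases hz : ∃ z, z ∈ strictUpper r x ∧ z ∈ strictLower r y
  · obtain ⟨z, hzx, hzy⟩ := hz
    by_cases hzt : z ∈ thin Y
    · exact ⟨z, Or.inl (Or.inl hzt), hzx.1, hzy.1⟩
    · have hzE : toReal z ∈ F x ∩ E y := ⟨hFU x z hzx, hEL y z hzy⟩
      obtain ⟨B, hB, hzB, hBE⟩ :=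
        (TopologicalSpace.isBasis_countableBasis ℝ).exists_subset_of_mem_open hzE
          ((hF x).inter (hE y))
      have hex : ∃ w : Y, w ∉ thin Y ∧ toReal w ∈ B := ⟨z, hzt, hzB⟩
      refine ⟨hex.choose, Or.inl (Or.inr (mem_biUnion hB ⟨hex, rfl⟩)), ?_, ?_⟩
      · exact hFge x _ hex.choose_spec.1 (hBE hex.choose_spec.2).1
      · exact hEle y _ hex.choose_spec.1 (hBE hex.choose_spec.2).2
  · push Not at hz
    have hxE : toReal x ∈ E y := hEL y x ⟨hxy, hyx⟩
    have hle : ∀ w : Y, w ∉ thin Y → toReal w ∈ E y → r w x := by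
      intro w hw hwE
      have h1 : toReal w ∉ F x := sep (hE y) (hF x) (hEc y) (hFc x)
        (fun z hz' hz'' => hz z hz'' hz') hw hwE
      by_contra hc
      exact h1 (hFU x w ⟨(htotal w x).resolve_left hc, hc⟩)
    obtain ⟨B, hB, hxB, hBE⟩ :=
      (TopologicalSpace.isBasis_countableBasis ℝ).exists_subset_of_mem_open hxE (hE y)
    have hex : ∃ x' : Y, P B x' := ⟨x, hx, hxB, fun w hw hwB => hle w hw (hBE hwB)⟩
    have hsp := hex.choose_spec
    refine ⟨hex.choose, Or.inr (mem_biUnion hB ⟨hex, rfl⟩), hsp.2.2 x hx hxB, ?_⟩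
    exact htrans _ x _ (hle _ hsp.1 (hBE hsp.2.1)) hxy

/-! ### The failure of the semicontinuous representability property -/

/-- The well-ordered index type of order type `ω₁`. -/
abbrev W : Type := (Cardinal.aleph 1).ord.ToType

lemma mk_W : Cardinal.mk W = Cardinal.aleph 1 := by simp [W]

lemma countable_Iic_W (i : W) : (Iic i).Countable := by
  have h1 : Cardinal.mk (Iio i) < Cardinal.mk W := Cardinal.mk_Iio_lt i (by simp)
  rw [mk_W, Cardinal.lt_aleph_one_iff, Cardinal.le_aleph0_iff_set_countable] at h1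
  rw [← Iio_insert]
  exact h1.insert i

lemma no_strictMono_W (v : W → ℝ) : ¬ StrictMono v := by
  intro hv
  have h1 : ∀ i : {i : W // ¬ IsMax i}, ∃ q : ℚ, v i < q ∧ (q : ℝ) < v (Order.succ i.1) :=
    fun i => exists_rat_btwn (hv (Order.lt_succ_of_not_isMax i.2))
  choose q hq1 hq2 using h1
  have hinj : Function.Injective q := by
    have key : ∀ i j : {i : W // ¬ IsMax i}, i.1 < j.1 → q i ≠ q j := by
      intro i j hij heq
      have h2 : (q i : ℝ) < q j := calc
        (q i : ℝ) < v (Order.succ i.1) := hq2 i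
        _ ≤ v j := hv.monotone (Order.succ_le_of_lt hij)
        _ < q j := hq1 j
      rw [heq] at h2
      exact lt_irrefl _ h2
    intro i j hij
    rcases lt_trichotomy i.1 j.1 with h | h | h
    · exact absurd hij (key i j h)
    · exact Subtype.ext h
    · exact absurd hij.symm (key j i h)
  have hc1 : Countable {i : W // ¬ IsMax i} := hinj.countable
  have hc2 : ({i : W | ¬ IsMax i} ∪ {i : W | IsMax i}).Countable := by
    refine Set.Countable.union (Set.countable_coe_iff.mp hc1) (Set.Subsingleton.countable ?_)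
    intro a ha b hb
    rcases le_total a b with h | h
    · exact le_antisymm h (ha h)
    · exact le_antisymm (hb h) h
  have hc3 : (univ : Set W).Countable := hc2.mono (fun i _ => (em (IsMax i)).symm)
  have hc4 : Cardinal.mk (univ : Set W) < Cardinal.aleph 1 := by
    rw [Cardinal.lt_aleph_one_iff, Cardinal.le_aleph0_iff_set_countable]
    exact hc3
  rw [Cardinal.mk_univ, mk_W] at hc4
  exact lt_irrefl _ hc4

theorem not_srp_RR : ¬ SRP RR := by
  classical
  intro hSRP
  obtain ⟨e₀⟩ : Nonempty (W ↪ ℝ) := by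
    rw [← Cardinal.le_def, mk_W, Cardinal.mk_real]
    exact Cardinal.aleph_one_le_continuum
  let e : W ↪ RR := ⟨fun i => ⟨e₀ i⟩, fun i j h => e₀.injective (RR.mk.inj h)⟩
  let ρ : RR → WithTop W := fun x => if h : ∃ i, e i = x then ((h.choose : W) : WithTop W) else ⊤
  have hρe : ∀ i, ρ (e i) = (i : WithTop W) := by
    intro i
    have h : ∃ j, e j = e i := ⟨i, rfl⟩
    have h2 : h.choose = i := e.injective h.choose_spec
    simp only [ρ, dif_pos h, h2]
  have hρtop : ∀ x : RR, (¬ ∃ i, e i = x) → ρ x = ⊤ := fun x hx => by simp only [ρ, dif_neg hx]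
  let r : RR → RR → Prop := fun x y => ρ x ≤ ρ y
  have hr : IsTotalPreorder r :=
    ⟨fun x => le_rfl, fun x y z h1 h2 => le_trans h1 h2, fun x y => le_total _ _⟩
  have hopen : ∀ x, IsOpen (strictUpper r x) := by
    intro x
    by_cases hx : ∃ i, e i = x
    · obtain ⟨i, rfl⟩ := hx
      refine ⟨univ, isOpen_univ, fun _ _ => mem_univ _, ((countable_Iic_W i).image e).mono ?_⟩
      rintro y ⟨-, hy⟩
      have hy' : ρ y ≤ (i : WithTop W) := by
        by_contra hc
        push Not at hc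
        exact hy ⟨by simpa only [r, hρe i] using hc.le, by simpa only [r, hρe i, not_le] using hc⟩
      by_cases hy2 : ∃ j, e j = y
      · obtain ⟨j, rfl⟩ := hy2
        rw [hρe j] at hy'
        exact ⟨j, WithTop.coe_le_coe.mp hy', rfl⟩
      · rw [hρtop y hy2] at hy'
        exact absurd hy' (not_le.mpr (WithTop.coe_lt_top i))
    · have : strictUpper r x = (∅ : Set RR) := by
        ext y
        simp only [strictUpper, r, hρtop x hx, mem_ofPred_eq, mem_empty_iff_false, iff_false,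
          not_and, not_not]
        intro _
        exact le_top
      rw [this]
      exact isOpen_empty
  obtain ⟨u, -, hu⟩ := hSRP.1 r hr hopen
  refine no_strictMono_W (fun i => u (e i)) ?_
  intro i j hij
  have h1 : ¬ r (e j) (e i) := by
    simp only [r, hρe, WithTop.coe_le_coe, not_le]
    exact hij
  have h2 : ¬ (u (e j) ≤ u (e i)) := fun h => h1 ((hu _ _).mpr h)
  exact not_le.mp h2

/-- **Answer to Q1 (negative).** There is a topological space, in which any two distinct points are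
separated by a continuous real function, that has HCRP but not SRP. -/
theorem result : ∃ (X : Type) (_ : TopologicalSpace X),
    (∀ x y : X, x ≠ y → ∃ f : X → ℝ, Continuous f ∧ f x ≠ f y) ∧ HCRP X ∧ ¬ SRP X :=
  ⟨RR, instTopRR, fun _ _ hxy => ⟨toReal, continuous_toReal, fun h => hxy (RR.ext h)⟩, hcrp_RR,
    not_srp_RR⟩

end Pool.Agent.Results.MP_67ce71_gt.HausdorffCounterexample
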